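import Mathlib
import Pool.Agent.H83.J.Can
import Pool.Agent.H20.Sp.WinC
import Pool.Agent.H52.W.AsmN

set_option autoImplicit false
open Finset

/-! # The canonical outside is a good outside

`outOK_N` : the canonical outside `outN M m hm` of a matching satisfies `OutOK` in the large box of the half side
`N ≤ m + 3`. `rootB_N` : its root is away from the large box. `oTyN_N` : the root strand enters at a mark. -/

namespace Pool.Agent.H21.J

open Pool.Agent.H75.Perc hiding ph cc EE
open Pool.Agent.H75.TwoArm Pool.Agent.Q1 Pool.Agent.H33.Q1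
open Pool.Agent.H69.Q1
open Pool.Agent.H33.Sp
open Pool.Agent.H46.Sp (Win)
open Pool.Agent.H74.Win (OutB GB InB fillc cLf cRt RootB)
open Pool.Agent.H13.Sp (nP nP_pos colp colq InL portc fillc_port WFc)
open Pool.Agent.H20.Sp (OutOK Ports PortN)
open Pool.Agent.H52.W (OTyN oTyN_of)
open Pool.Agent.H13.R45 (Ag OutF ag_he gp)
open Pool.Agent.H83.J

variable {D : Win} {l0 l m N x y : ℤ} {s : ℤ → ℤ}

/-- the port of an end is a wired row with a free row behind it -/
theorem portN_Xp (h1 : colp D l = true) (h2 : colp D (l + 1) = false) : PortN D (Xp D l) := by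
  have h0 := Int.emod_nonneg l (nP_pos D).ne'
  have h3 := Int.emod_lt_of_pos l (nP_pos D)
  have hn : nP D = 2 * D.h + 4 := rfl
  have hh := D.hh
  -- the colours
  have c1 : colq D (l % nP D) = true := h1
  have c2 : colp D (l % nP D + 1) = false := by
    rw [← h2]
    unfold colp
    rw [Int.emod_add_emod]
  unfold Pool.Agent.H13.Sp.colq at c1
  refine ⟨?_, ?_, ?_, ?_, ?_⟩
  · intro hX
    unfold Xp at hX ⊢
    split_ifs at hX ⊢ <;> simp at hX ⊢ <;> omega
  · intro hX
    unfold Xp at hX ⊢
    split_ifs at hX ⊢ <;> simp at hX ⊢ <;> omega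
  · unfold portc
    rcases (by omega : l % nP D = 0 ∨ (1 ≤ l % nP D ∧ l % nP D ≤ D.h + 1) ∨ l % nP D = D.h + 2 ∨
        D.h + 3 ≤ l % nP D) with c | c | c | c
    · have hX : Xp D l = (true, -2) := by unfold Xp; rw [if_pos c]
      rw [if_pos c] at c1
      rw [hX, if_pos (by simp only; omega)]
      exact c1
    · have hX : Xp D l = (true, l % nP D - 2) := by
        unfold Xp; rw [if_neg (by omega), if_pos (by omega)]
      rw [if_neg (by omega), if_pos (by omega)] at c1
      rw [hX, if_neg (by simp only; omega), if_neg (by simp only; omega), if_pos rfl]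
      exact c1
    · have hX : Xp D l = (false, D.h) := by
        unfold Xp; rw [if_neg (by omega), if_neg (by omega), if_pos c]
      rw [if_neg (by omega), if_neg (by omega), if_pos c] at c1
      rw [hX, if_neg (by simp only; omega), if_pos (by simp only; omega)]
      exact c1
    · have hX : Xp D l = (false, 2 * D.h + 2 - l % nP D) := by
        unfold Xp; rw [if_neg (by omega), if_neg (by omega), if_neg (by omega)]
      rw [if_neg (by omega), if_neg (by omega), if_neg (by omega)] at c1
      rw [hX, if_neg (by simp only; omega), if_neg (by simp only; omega), if_neg (by simp)]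
      exact c1
  · intro hX
    rw [← c2]
    unfold Xp at hX ⊢
    congr 1
    split_ifs at hX ⊢ <;> simp at hX ⊢ <;> omega
  · intro hX
    rw [← c2]
    unfold Xp at hX ⊢
    congr 1
    split_ifs at hX ⊢ <;> simp at hX ⊢ <;> omega

/-- the port of an end is a mark of the ring -/
theorem wfc_Xp (h1 : colp D l = true) (h2 : colp D (l + 1) = false) : WFc (cLf D) (cRt D) (Xp D l) := by
  have H := portN_Xp h1 h2
  have hh := D.hh
  have hn : nP D = 2 * D.h + 4 := rfl
  unfold WFc
  have hc := H.c
  unfold portc at hc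
  rcases hX : (Xp D l).1 with _ | _
  · obtain ⟨r1, r2⟩ := H.rl hX
    have e := H.l hX
    rw [if_neg (by simp)]
    unfold cLf
    rw [if_neg (by omega)] at hc
    constructor
    · rw [if_neg (by omega)]
      rw [hX] at hc
      simpa using hc
    · -- the next position
      rw [← e]
      unfold colp Pool.Agent.H13.Sp.colq
      by_cases c : (Xp D l).2 = -1
      · rw [if_pos (by omega), c, show 2 * D.h + 3 - -1 = nP D by omega, Int.emod_self, if_pos rfl]
      · rw [if_neg (by omega), if_neg (by omega), Int.emod_eq_of_lt (by omega) (by omega), if_neg (by omega),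
          if_neg (by omega), if_neg (by omega)]
        congr 1
        omega
  · obtain ⟨r1, r2⟩ := H.rr hX
    have e := H.r hX
    rw [if_pos rfl]
    unfold cRt
    constructor
    · rw [hX] at hc
      simpa using hc
    · rw [← e]
      have e5 : ((Xp D l).2 + 3) % nP D = (Xp D l).2 + 3 := Int.emod_eq_of_lt (by omega) (by omega)
      unfold colp Pool.Agent.H13.Sp.colq
      rw [e5]
      by_cases c : D.h ≤ (Xp D l).2 + 1
      · rw [if_neg (by omega), if_pos c, if_neg (by omega), if_neg (by omega), if_pos (by omega)]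
      · rw [if_neg (by omega), if_neg c, if_neg (by omega), if_pos (by omega)]
        congr 1
        omega

/-- **The rows of the ports** -/
theorem outN_row (M : Mat D l0 s) (hm : 1 ≤ m) (hN : N ≤ m + 3) (hin : InL D N x y)
    (hl : lt (x, y) ∈ (outN M m hm).Wo) : ∃ X, PortN D X ∧
      y = X.2 ∧ ((X.1 = false ∧ x + 4 < D.a (D.yP - 1)) ∨ (X.1 = true ∧ D.b D.yQ + 4 ≤ x)) := by
  have hh := D.hh
  have hn : nP D = 2 * D.h + 4 := rfl
  have e0 := bx_x0 (D := D)
  have e1 := bx_x1 (D := D)
  have e2 := bx_y0 (D := D)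
  have e3 := bx_y1 (D := D)
  have e4 := bx_N (D := D)
  have hb : ¬ (bx D).InB x y := by
    rw [outN_Wo, BF.mem_WoN (pat2 M)] at hl
    exact hl.1
  have hlv : (bx D).lv x y ≤ m := by
    unfold InL at hin
    unfold BF.lv
    omega
  obtain ⟨l, h1, h2⟩ := outN_low M hm hlv hl
  have H := portN_Xp h1.2.2.1 h1.2.2.2
  refine ⟨Xp D l, H, ?_⟩
  unfold BF.InB at hb
  unfold BF.cy BF.pos at h2
  rcases hX : (Xp D l).1 with _ | _
  · obtain ⟨r1, r2⟩ := H.rl hX
    rw [hX] at h2
    simp only [Bool.false_eq_true, if_false] at h2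
    have : y = (Xp D l).2 ∧ x + 4 < D.a (D.yP - 1) := by split_ifs at h2 <;> omega
    exact ⟨this.1, Or.inl ⟨rfl, this.2⟩⟩
  · obtain ⟨r1, r2⟩ := H.rr hX
    rw [hX] at h2
    simp only [if_true] at h2
    have : y = (Xp D l).2 ∧ D.b D.yQ + 4 ≤ x := by split_ifs at h2 <;> omega
    exact ⟨this.1, Or.inr ⟨rfl, this.2⟩⟩

/-- **The canonical outside is good.** -/
theorem outOK_N (M : Mat D l0 s) (hm : 1 ≤ m) (hN : N ≤ m + 3) : OutOK (outN M m hm) N where
  free x y hin hc hl := by
    obtain ⟨X, h1, h2⟩ := outN_row M hm hN hin hl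
    rw [fillc_port h2, h1.c] at hc
    exact Bool.noConfusion hc
  port x y hin hl := by
    obtain ⟨X, h1, h2⟩ := outN_row M hm hN hin hl
    exact h1.port h2
  root g hg := by
    have e0 := bx_x0 (D := D)
    have e1 := bx_x1 (D := D)
    rw [outN_c0] at hg
    unfold BF.cR at hg
    rw [ag_he] at hg
    unfold BF.xR at hg
    unfold OutF
    split_ifs at hg <;> rcases hg with rfl | rfl <;> simp only <;> omega

/-- **The root of the canonical outside is away from the large box.** -/
theorem rootB_N (M : Mat D l0 s) (hm : 1 ≤ m) (h2 : 2 ≤ m) : RootB (outN M m hm) := by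
  intro x y hin
  have e0 := bx_x0 (D := D)
  have e1 := bx_x1 (D := D)
  unfold Pool.Agent.H74.Win.InB at hin
  obtain ⟨⟨a, a1, a2, a3⟩, ⟨b, b1, b2, b3⟩⟩ := BF.vf_cR (B := bx D) (X := Xp D l0) (K := m)
  rw [outN_c0, a3, b3, tv_gp a2, tf_gp b2]
  unfold BF.xR at a1 b1
  unfold Tch
  simp only
  constructor
  · split_ifs at a1 <;> omega
  · split_ifs at b1 <;> omega

/-- **The root strand enters the large box at a mark.** -/
theorem oTyN_N (M : Mat D l0 s) (hm : 1 ≤ m) (h2 : 2 ≤ m) : OTyN (outN M m hm) :=
  oTyN_of (fun _ he => outN_odd M hm he) (rootB_N M hm h2) (wfc_Xp M.root.1 M.root.2)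
    (outN_rv M hm (fun _ h => h)) (outN_rf M hm (fun _ h => h))

end Pool.Agent.H21.J
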